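import Pool.Agent.Helper1.IP.Miss
import Pool.Agent.Helper6.IP.Pyr

/-!
# Project IP, piece J: the numbers
-/

namespace Pool.Agent.Helper6.IP

open Real

/-- The numerical estimate. -/
theorem num_bound {e : ℝ} (he : 0 < e) {a : ℕ} (ha2 : 2 ≤ a) (ha : 24 / e ≤ a) {s h k : ℕ} (hs : 1 ≤ s)
    (hh : 1 ≤ h) (hk : (a * s) ^ a ≤ k) {M T N : ℝ} (hM0 : 0 ≤ M) (hM : M ≤ 4 * (s : ℝ) ^ 2 * k) (he1 : e ≤ 1)
    (hT0 : 0 ≤ T) (hT : T ≤ M ^ (1 - e)) (hN : N ≤ M ^ (e * h / 8)) :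
    T / k + N * T ^ h / (k : ℝ) ^ h ≤ (k : ℝ) ^ (-(e / 3)) := by
  have hapos : (0 : ℝ) < a := by exact_mod_cast (by omega : 0 < a)
  have hs1 : (1 : ℝ) ≤ s := by exact_mod_cast hs
  have hh1 : (1 : ℝ) ≤ h := by exact_mod_cast hh
  have ha2' : (2 : ℝ) ≤ a := by exact_mod_cast ha2
  have hkR : ((a : ℝ) * s) ^ a ≤ k := by exact_mod_cast hk
  have han2 : (2 : ℝ) ≤ a * s := by nlinarith
  have hk2 : (2 : ℝ) ^ a ≤ k := (pow_le_pow_left₀ (by norm_num) han2 a).trans hkR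
  have hK1 : (1 : ℝ) ≤ k := le_trans (one_le_pow₀ (by norm_num)) hk2
  have hK0 : (0 : ℝ) < k := by linarith
  -- the size of the number of cells
  have h2a : 2 / (a : ℝ) ≤ e / 12 := by
    rw [div_le_div_iff₀ hapos (by norm_num)]
    rw [div_le_iff₀ he] at ha
    nlinarith
  have han : (a : ℝ) * s ≤ (k : ℝ) ^ (1 / (a : ℝ)) := by
    have h1 : (((a : ℝ) * s) ^ a) ^ (1 / (a : ℝ)) ≤ (k : ℝ) ^ (1 / (a : ℝ)) :=
      Real.rpow_le_rpow (by positivity) hkR (by positivity)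
    rwa [← Real.rpow_natCast, ← Real.rpow_mul (by positivity), mul_one_div_cancel hapos.ne', Real.rpow_one] at h1
  have h4n : 4 * (s : ℝ) ^ 2 ≤ (k : ℝ) ^ (2 / (a : ℝ)) := by
    have h1 : 4 * (s : ℝ) ^ 2 ≤ ((a : ℝ) * s) ^ 2 := by
      rw [mul_pow]
      have h2 : (4 : ℝ) ≤ (a : ℝ) ^ 2 := by nlinarith
      exact mul_le_mul_of_nonneg_right h2 (by positivity)
    have h3 : ((a : ℝ) * s) ^ 2 ≤ ((k : ℝ) ^ (1 / (a : ℝ))) ^ 2 := pow_le_pow_left₀ (by positivity) han 2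
    have h4 : ((k : ℝ) ^ (1 / (a : ℝ))) ^ 2 = (k : ℝ) ^ (2 / (a : ℝ)) := by
      rw [← Real.rpow_natCast, ← Real.rpow_mul hK0.le]
      congr 1
      push_cast
      ring
    rw [h4] at h3
    exact h1.trans h3
  have hMK : M ≤ (k : ℝ) ^ (1 + e / 12) := by
    refine hM.trans ?_
    rw [add_comm, Real.rpow_add hK0, Real.rpow_one]
    exact mul_le_mul_of_nonneg_right (h4n.trans (Real.rpow_le_rpow_of_exponent_le hK1 h2a)) hK0.le
  -- the number of the inspected cells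
  have hTK : T / k ≤ (k : ℝ) ^ (-(11 * e / 12)) := by
    rw [div_le_iff₀ hK0]
    have h1 : T ≤ ((k : ℝ) ^ (1 + e / 12)) ^ (1 - e) :=
      hT.trans (Real.rpow_le_rpow hM0 hMK (by linarith))
    rw [← Real.rpow_mul hK0.le] at h1
    refine h1.trans ?_
    have h2 : (k : ℝ) ^ (-(11 * e / 12)) * k = (k : ℝ) ^ (-(11 * e / 12) + 1) := by
      rw [Real.rpow_add hK0, Real.rpow_one]
    rw [h2]
    refine Real.rpow_le_rpow_of_exponent_le hK1 ?_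
    nlinarith
  have hTK0 : 0 ≤ T / k := by positivity
  have hN' : N ≤ ((k : ℝ) ^ (e / 7)) ^ h := by
    have h1 : N ≤ ((k : ℝ) ^ (1 + e / 12)) ^ (e * h / 8) :=
      hN.trans (Real.rpow_le_rpow hM0 hMK (by positivity))
    rw [← Real.rpow_mul hK0.le] at h1
    rw [← Real.rpow_natCast, ← Real.rpow_mul hK0.le]
    refine h1.trans (Real.rpow_le_rpow_of_exponent_le hK1 ?_)
    have h2 : 0 < e * h := by positivity
    nlinarith
  have h34 : (k : ℝ) ^ (-(11 * e / 12)) ≤ (k : ℝ) ^ (-(3 * e / 4)) :=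
    Real.rpow_le_rpow_of_exponent_le hK1 (by linarith)
  have hsec : N * T ^ h / (k : ℝ) ^ h ≤ (k : ℝ) ^ (-(3 * e / 4)) := by
    rw [mul_div_assoc, ← div_pow]
    have h1 : N * (T / k) ^ h ≤ ((k : ℝ) ^ (e / 7)) ^ h * ((k : ℝ) ^ (-(11 * e / 12))) ^ h :=
      mul_le_mul hN' (pow_le_pow_left₀ hTK0 hTK h) (by positivity) (by positivity)
    refine h1.trans ?_
    rw [← mul_pow, ← Real.rpow_add hK0]
    have h2 : (k : ℝ) ^ (e / 7 + -(11 * e / 12)) ≤ (k : ℝ) ^ (-(3 * e / 4)) :=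
      Real.rpow_le_rpow_of_exponent_le hK1 (by linarith)
    have h3 : (k : ℝ) ^ (-(3 * e / 4)) ≤ 1 := Real.rpow_le_one_of_one_le_of_nonpos hK1 (by linarith)
    calc ((k : ℝ) ^ (e / 7 + -(11 * e / 12))) ^ h ≤ ((k : ℝ) ^ (-(3 * e / 4))) ^ h :=
          pow_le_pow_left₀ (by positivity) h2 h
      _ ≤ (k : ℝ) ^ (-(3 * e / 4)) := pow_le_of_le_one (by positivity) h3 (by omega)
  have hfin : 2 * (k : ℝ) ^ (-(3 * e / 4)) ≤ (k : ℝ) ^ (-(e / 3)) := by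
    have h1 : (2 : ℝ) ≤ (k : ℝ) ^ (5 * e / 12) := by
      have h2 : ((2 : ℝ) ^ a) ^ (5 * e / 12) ≤ (k : ℝ) ^ (5 * e / 12) :=
        Real.rpow_le_rpow (by positivity) hk2 (by positivity)
      refine le_trans ?_ h2
      rw [← Real.rpow_natCast, ← Real.rpow_mul (by norm_num)]
      have h3 : (1 : ℝ) ≤ a * (5 * e / 12) := by
        rw [div_le_iff₀ he] at ha
        nlinarith
      calc (2 : ℝ) = 2 ^ (1 : ℝ) := by rw [Real.rpow_one]
        _ ≤ 2 ^ ((a : ℝ) * (5 * e / 12)) := Real.rpow_le_rpow_of_exponent_le (by norm_num) h3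
    have h2 : (k : ℝ) ^ (-(e / 3)) = (k : ℝ) ^ (5 * e / 12) * (k : ℝ) ^ (-(3 * e / 4)) := by
      rw [← Real.rpow_add hK0]
      congr 1
      ring
    rw [h2]
    exact mul_le_mul_of_nonneg_right h1 (by positivity)
  linarith

/-- The bound for a graph with at most `4 s ^ 2 k` cells. -/
theorem dag_bound {e : ℝ} (he : 0 < e) (he1 : e ≤ 1) {a : ℕ} (ha2 : 2 ≤ a) (ha : 24 / e ≤ a) (G : Dag) (A : Type)
    [AddCommGroup A] [Fintype A] {d h p N s : ℕ} (φ : A → A) (B : BP (G.Cell A) A N) (hd2 : 2 ≤ d)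
    (hd : ∀ v, Nat.card {x // G.head x = v} ≤ d) (hP : ¬ G.Pebbles ((d - 1) * h + 1)) (hh : 1 ≤ h) (hs : 1 ≤ s)
    (hk : (a * s) ^ a ≤ Fintype.card A) (hM : Nat.card (G.Cell A) ≤ 4 * s ^ 2 * Fintype.card A)
    (hφ : ∀ y, Nat.card {x // φ x = y} ≤ p) (hN : (N : ℝ) ≤ (Nat.card (G.Cell A) : ℝ) ^ (e * h / 8)) :
    (Nat.card {I : G.Cell A → A // B.Outputs I (φ (G.val I G.root)) ∧
      (Nat.card {c // B.Asks I c} : ℝ) ≤ (Nat.card (G.Cell A) : ℝ) ^ (1 - e)} : ℝ) ≤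
      (p / Fintype.card A + (Fintype.card A : ℝ) ^ (-(e / 3))) * Nat.card (G.Cell A → A) := by
  obtain ⟨M, hMd⟩ : ∃ M, M = Nat.card (G.Cell A) := ⟨_, rfl⟩
  obtain ⟨k, hkd⟩ : ∃ k, k = Fintype.card A := ⟨_, rfl⟩
  rw [← hMd] at hM hN ⊢
  rw [← hkd] at hk hM ⊢
  obtain ⟨T, hT⟩ : ∃ T, T = ⌊(M : ℝ) ^ (1 - e)⌋₊ := ⟨_, rfl⟩
  have hM0 : (0 : ℝ) ≤ (M : ℝ) ^ (1 - e) := by positivity
  have hTr : (T : ℝ) ≤ (M : ℝ) ^ (1 - e) := by
    rw [hT]
    exact Nat.floor_le hM0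
  have hk1 : 1 ≤ k := le_trans (Nat.one_le_pow _ _ (by positivity)) hk
  have hMle : (M : ℝ) ≤ 4 * (s : ℝ) ^ 2 * k := by exact_mod_cast hM
  have hmain := Pool.Agent.Helper1.IP.main_bound (G := G) d h T p hd2 hd hP B φ hφ
  have hnum := num_bound (e := e) he (a := a) ha2 ha hs hh hk (M := (M : ℝ)) (T := (T : ℝ)) (N := (N : ℝ))
    (Nat.cast_nonneg _) hMle he1 (Nat.cast_nonneg _) hTr hN
  have hcard : (Nat.card {I : G.Cell A → A // B.Outputs I (φ (G.val I G.root)) ∧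
        (Nat.card {c // B.Asks I c} : ℝ) ≤ (M : ℝ) ^ (1 - e)} : ℝ) =
      (Nat.card {I : G.Cell A → A // B.Outputs I (φ (G.val I G.root)) ∧
        Nat.card {c // B.Asks I c} ≤ T} : ℝ) := by
    have hiff : ∀ x : ℕ, (x : ℝ) ≤ (M : ℝ) ^ (1 - e) ↔ x ≤ T := fun x => by rw [hT, Nat.le_floor_iff hM0]
    simp only [hiff]
  rw [hcard]
  refine hmain.trans (mul_le_mul_of_nonneg_right ?_ (Nat.cast_nonneg _))
  rw [← hkd]
  have hK0 : (0 : ℝ) < k := by exact_mod_cast hk1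
  have hch : (N : ℝ) * T.choose h / (k : ℝ) ^ h ≤ N * (T : ℝ) ^ h / (k : ℝ) ^ h := by
    have h1 : (T.choose h : ℝ) ≤ (T : ℝ) ^ h := by exact_mod_cast Nat.choose_le_pow T h
    exact div_le_div_of_nonneg_right (mul_le_mul_of_nonneg_left h1 (Nat.cast_nonneg _)) (by positivity)
  rw [add_div]
  linarith

/-- IP-J2: every graph. -/
theorem gen_cor (e : ℝ) (he : 0 < e) (he1 : e ≤ 1) : ∃ a : ℕ, ∀ (G : Dag) (A : Type) [AddCommGroup A] [Fintype A]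
    (d h p N : ℕ) (φ : A → A) (B : BP (G.Cell A) A N), 2 ≤ d → (∀ v, Nat.card {x // G.head x = v} ≤ d) →
    ¬ G.Pebbles ((d - 1) * h + 1) → 1 ≤ h → (a * (Nat.card G.V + Nat.card G.E)) ^ a ≤ Fintype.card A →
    (∀ y, Nat.card {x // φ x = y} ≤ p) → (N : ℝ) ≤ (Nat.card (G.Cell A) : ℝ) ^ (e * h / 8) →
      (Nat.card {I : G.Cell A → A // B.Outputs I (φ (G.val I G.root)) ∧
        (Nat.card {c // B.Asks I c} : ℝ) ≤ (Nat.card (G.Cell A) : ℝ) ^ (1 - e)} : ℝ) ≤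
        (p / Fintype.card A + (Fintype.card A : ℝ) ^ (-(e / 3))) * Nat.card (G.Cell A → A) := by
  obtain ⟨a0, ha0⟩ := exists_nat_ge (24 / e)
  refine ⟨a0 + 2, fun G A _ _ d h p N φ B hd2 hd hP hh hk hφ hN => ?_⟩
  have ha : 24 / e ≤ ((a0 + 2 : ℕ) : ℝ) := by
    push_cast
    linarith
  have hV : 1 ≤ Nat.card G.V := by
    rw [Nat.card_eq_fintype_card]
    exact Fintype.card_pos_iff.2 ⟨G.root⟩
  have hs : 1 ≤ Nat.card G.V + Nat.card G.E := by omega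
  have hk1 : 1 ≤ Fintype.card A := le_trans (Nat.one_le_pow _ _ (by positivity)) hk
  refine dag_bound he he1 (by omega) ha G A φ B hd2 hd hP hh hs hk ?_ hφ hN
  have h1 : Nat.card (G.Cell A) = Nat.card G.Src + Nat.card G.E * Fintype.card A := by
    have h2 : Nat.card (G.Cell A) = Nat.card (G.Src ⊕ (G.E × A)) := rfl
    rw [h2, Nat.card_sum, Nat.card_prod, Nat.card_eq_fintype_card (α := A)]
  have h2 : Nat.card G.Src ≤ Nat.card G.V := Nat.card_le_card_of_injective Subtype.val Subtype.val_injective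
  rw [h1]
  generalize Nat.card G.V = x at *
  generalize Nat.card G.E = y at *
  generalize Nat.card G.Src = z at *
  generalize Fintype.card A = k at *
  calc z + y * k ≤ x * k + y * k := by nlinarith
    _ = 1 * (x + y) * k := by ring
    _ ≤ (4 * (x + y)) * (x + y) * k := by
      refine Nat.mul_le_mul_right _ (Nat.mul_le_mul_right _ ?_)
      omega
    _ = 4 * (x + y) ^ 2 * k := by ring

theorem card_cell_pyr (n : ℕ) (A : Type) [Fintype A] :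
    Nat.card ((pyr n).Cell A) = (n + 1) + n * (n + 1) * Fintype.card A := by
  have h1 : Nat.card ((pyr n).Cell A) = Nat.card ((pyr n).Src ⊕ ((pyr n).E × A)) := rfl
  rw [h1, Nat.card_sum, Nat.card_prod, card_Src_pyr, card_E_pyr, Nat.card_eq_fintype_card (α := A)]

/-- IP-J. -/
theorem pyr_cor (e : ℝ) (he : 0 < e) (he1 : e ≤ 1) : ∃ a : ℕ, ∀ n k : ℕ, 1 ≤ n → (a * n) ^ a ≤ k →
    ∀ (A : Type) [AddCommGroup A] [Fintype A], Fintype.card A = k → ∀ M : ℕ, M = Nat.card ((pyr n).Cell A) →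
    ∀ (N p : ℕ) (φ : A → A) (B : BP ((pyr n).Cell A) A N), (∀ y, Nat.card {x // φ x = y} ≤ p) →
      (N : ℝ) ≤ (M : ℝ) ^ (e * n / 8) →
      (Nat.card {I : (pyr n).Cell A → A // B.Outputs I (φ ((pyr n).val I (pyr n).root)) ∧
        (Nat.card {c // B.Asks I c} : ℝ) ≤ (M : ℝ) ^ (1 - e)} : ℝ) ≤
        (p / k + (k : ℝ) ^ (-(e / 3))) * Nat.card ((pyr n).Cell A → A) := by
  obtain ⟨a0, ha0⟩ := exists_nat_ge (24 / e)
  refine ⟨a0 + 2, fun n k hn hk A _ _ hA M hM N p φ B hφ hN => ?_⟩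
  have ha : 24 / e ≤ ((a0 + 2 : ℕ) : ℝ) := by
    push_cast
    linarith
  have hk1 : 1 ≤ k := le_trans (Nat.one_le_pow _ _ (by positivity)) hk
  subst hA hM
  refine dag_bound he he1 (by omega) ha (pyr n) A φ B le_rfl (indeg_pyr n) (by simpa using not_pebbles_pyr hn) hn hn
    hk ?_ hφ hN
  rw [card_cell_pyr]
  nlinarith [Nat.mul_le_mul hn hk1, Nat.mul_le_mul hn hn, Nat.mul_le_mul (Nat.mul_le_mul hn hn) hk1,
    Nat.mul_le_mul_right (Fintype.card A) hn, Nat.mul_le_mul_right (n * Fintype.card A) hn]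

end Pool.Agent.Helper6.IP
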